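import Pool.Agent.Lib.MP_b5021c_nt.IfaceB

/-!
# Rows A3A, A3B: coefficients and values of polynomials without zeros in the open disc
-/

set_option autoImplicit false

namespace Pool.Agent.MP_b5021c_nt.H76

open Polynomial Pool.Agent.B5

theorem ZF.ne_zero {p : ℂ[X]} (h : ZF p) : p ≠ 0 := by
  rintro rfl
  exact h 0 (by simp) (by simp)

theorem ZF.coeff_zero {p : ℂ[X]} (h : ZF p) : p.coeff 0 ≠ 0 := by
  rw [Polynomial.coeff_zero_eq_eval_zero]
  exact h 0 (by simp)

theorem ZF.root {p : ℂ[X]} (h : ZF p) {r : ℂ} (hr : r ∈ p.roots) : 1 ≤ ‖r‖ := by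
  by_contra hc
  exact h r (not_le.mp hc) ((Polynomial.mem_roots (ZF.ne_zero h)).mp hr)

theorem a3a : A3aS := by
  intro p m hm hp c
  have h0 := ZF.coeff_zero hp
  have hne := ZF.ne_zero hp
  rcases lt_or_ge p.natDegree c with hc | hc
  · rw [Polynomial.coeff_eq_zero_of_natDegree_lt hc, norm_zero]
    positivity
  have htd : p.natTrailingDegree = 0 := Polynomial.natTrailingDegree_eq_zero.mpr (Or.inr h0)
  have hrd : p.reverse.natDegree = p.natDegree := by
    rw [Polynomial.reverse_natDegree, htd, Nat.sub_zero]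
  have hrl : p.reverse.leadingCoeff = p.coeff 0 := by
    rw [Polynomial.reverse_leadingCoeff, Polynomial.trailingCoeff, htd]
  set q : ℂ[X] := C (p.coeff 0)⁻¹ * p.reverse with hq
  have hq0 : p.reverse ≠ 0 := by
    intro h
    rw [h, Polynomial.leadingCoeff_zero] at hrl
    exact h0 hrl.symm
  have hmon : q.Monic := by
    rw [Polynomial.Monic, hq, Polynomial.leadingCoeff_mul, Polynomial.leadingCoeff_C, hrl,
      inv_mul_cancel₀ h0]
  have hqd : q.natDegree = p.natDegree := by
    rw [hq, Polynomial.natDegree_C_mul (inv_ne_zero h0), hrd]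
  have hroots : ∀ z ∈ (q.map (RingHom.id ℂ)).roots, ‖z‖ ≤ 1 := by
    intro z hz
    rw [Polynomial.map_id] at hz
    have hz1 : q.eval z = 0 := (Polynomial.mem_roots hmon.ne_zero).mp hz
    rw [hq, Polynomial.eval_mul, Polynomial.eval_C] at hz1
    have hz2 : p.reverse.eval z = 0 := (mul_eq_zero.mp hz1).resolve_left (inv_ne_zero h0)
    by_contra hcon
    have hcon := not_le.mp hcon
    have hz0 : z ≠ 0 := by
      rintro rfl
      rw [norm_zero] at hcon
      linarith
    have h3 : Polynomial.eval₂ (RingHom.id ℂ) (z⁻¹) p = 0 := by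
      let hi : Invertible z⁻¹ := ⟨z, mul_inv_cancel₀ hz0, inv_mul_cancel₀ hz0⟩
      have h5 := Polynomial.eval₂_reverse_mul_pow (RingHom.id ℂ) (z⁻¹) p
      have h6 : ⅟(z⁻¹) = z := rfl
      rw [← h5, h6]
      have h7 : Polynomial.eval₂ (RingHom.id ℂ) z p.reverse = 0 := hz2
      rw [h7, zero_mul]
    have h4 : p.eval z⁻¹ = 0 := h3
    refine hp z⁻¹ ?_ h4
    rw [norm_inv]
    exact inv_lt_one_of_one_lt₀ hcon
  have hsp : (q.map (RingHom.id ℂ)).Splits := IsAlgClosed.splits _
  have h5 := Polynomial.coeff_le_of_roots_le (p := q) (f := RingHom.id ℂ) (B := 1)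
    (p.natDegree - c) hmon hsp hroots
  rw [Polynomial.map_id, one_pow, one_mul, hqd, hq, Polynomial.coeff_C_mul, norm_mul, norm_inv,
    Polynomial.coeff_reverse, Polynomial.revAt_le (by omega)] at h5
  have h6 : p.natDegree - (p.natDegree - c) = c := by omega
  rw [h6, Nat.choose_symm hc, inv_mul_le_iff₀ (norm_pos_iff.mpr h0)] at h5
  have h7 : (p.natDegree.choose c : ℝ) ≤ (m.choose c : ℝ) := by
    exact_mod_cast Nat.choose_le_choose c hm
  nlinarith [norm_nonneg (p.coeff 0)]

theorem a3b : A3bS := by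
  intro p m hm hp s hs
  have hne := ZF.ne_zero hp
  have hsp : p.Splits := IsAlgClosed.splits _
  have hcard : p.roots.card = p.natDegree := by
    exact (Polynomial.splits_iff_card_roots.mp hsp)
  have hev : ∀ t : ℂ, ‖p.eval t‖ = ‖p.leadingCoeff‖ * (p.roots.map fun r => ‖t - r‖).prod := by
    intro t
    have h8 : p.eval t = p.leadingCoeff * (p.roots.map fun r => t - r).prod := by
      have h9 := hsp.eval_eq_prod_roots t
      exact h9
    rw [h8, norm_mul]
    congr 1
    have h10 := map_multiset_prod (normHom : ℂ →*₀ ℝ) (p.roots.map fun r => t - r)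
    rw [Multiset.map_map] at h10
    exact h10
  have key : ∀ S : Multiset ℂ, (∀ r ∈ S, 1 ≤ ‖r‖) →
      (S.map fun r => ‖(0 : ℂ) - r‖).prod * (1 - ‖s‖) ^ S.card ≤ (S.map fun r => ‖s - r‖).prod := by
    intro S
    induction S using Multiset.induction_on with
    | empty => intro _; simp
    | cons a S ih =>
      intro h
      have h1 := ih fun r hr => h r (Multiset.mem_cons_of_mem hr)
      have h2 := h a (Multiset.mem_cons_self a S)
      rw [Multiset.map_cons, Multiset.prod_cons, Multiset.map_cons, Multiset.prod_cons,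
        Multiset.card_cons, pow_succ]
      have h3 : ‖(0 : ℂ) - a‖ * (1 - ‖s‖) ≤ ‖s - a‖ := by
        rw [zero_sub, norm_neg]
        have h4 : ‖a‖ - ‖s‖ ≤ ‖s - a‖ := by
          rw [norm_sub_rev]
          exact norm_sub_norm_le a s
        nlinarith [norm_nonneg s]
      have h5 : 0 ≤ (S.map fun r => ‖(0 : ℂ) - r‖).prod :=
        Multiset.prod_nonneg (by
          intro x hx
          obtain ⟨r, _, rfl⟩ := Multiset.mem_map.mp hx
          exact norm_nonneg _)
      calc ‖(0 : ℂ) - a‖ * (S.map fun r => ‖(0 : ℂ) - r‖).prod * ((1 - ‖s‖) ^ S.card * (1 - ‖s‖))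
          = (‖(0 : ℂ) - a‖ * (1 - ‖s‖)) *
              ((S.map fun r => ‖(0 : ℂ) - r‖).prod * (1 - ‖s‖) ^ S.card) := by ring
        _ ≤ ‖s - a‖ * (S.map fun r => ‖s - r‖).prod := by
            apply mul_le_mul h3 h1
            · exact mul_nonneg h5 (pow_nonneg (by linarith) _)
            · exact norm_nonneg _
  have h1 := key p.roots fun r hr => ZF.root hp hr
  rw [Polynomial.coeff_zero_eq_eval_zero, hev 0, hev s, mul_assoc]
  apply mul_le_mul_of_nonneg_left _ (norm_nonneg _)
  refine le_trans ?_ h1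
  apply mul_le_mul_of_nonneg_left
  · rw [hcard]
    exact pow_le_pow_of_le_one (by linarith) (by linarith [norm_nonneg s]) hm
  · exact Multiset.prod_nonneg (by
      intro x hx
      obtain ⟨r, _, rfl⟩ := Multiset.mem_map.mp hx
      exact norm_nonneg _)

end Pool.Agent.MP_b5021c_nt.H76
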