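import Pool.Agent.Lib.MP_b5021c_nt.IfaceK1

/-!
Rows BP1 and ISO of chapter K (MP_b5021c_nt): limits of `BP` sequences with `t_n → 1`, and isolation
of the `BU` sequences.
-/

namespace Pool.Agent.MP_b5021c_nt.H76

open Filter Topology

theorem den_pos {t : ℝ} (ht : 1 < t) : 0 < t ^ 2 - 1 := by nlinarith

theorem sum_le {a : ℕ → ℤ} {c t : ℝ} {h : ℕ → ℝ} (H : BP a c t h) (s : Finset ℕ) :
    c ^ 2 / (t ^ 2 - 1) + ∑ j ∈ s, h j ^ 2 ≤ 1 := by
  obtain ⟨h1, h2, h3, h4⟩ := H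
  have := h3.sum_le_tsum s (fun j _ => sq_nonneg (h j))
  linarith

theorem csq_le {a : ℕ → ℤ} {c t : ℝ} {h : ℕ → ℝ} (H : BP a c t h) : c ^ 2 ≤ t ^ 2 - 1 := by
  have h0 := sum_le H ∅
  have h1 := den_pos H.1
  simp only [Finset.sum_empty, add_zero] at h0
  rwa [div_le_one h1] at h0

theorem fsum_le {a : ℕ → ℤ} {c t : ℝ} {h : ℕ → ℝ} (H : BP a c t h) (s : Finset ℕ) :
    ∑ j ∈ s, h j ^ 2 ≤ 1 := by
  have h0 := sum_le H s
  have h1 : 0 ≤ c ^ 2 / (t ^ 2 - 1) := div_nonneg (sq_nonneg c) (den_pos H.1).le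
  linarith

/-- the remainders converge -/
theorem h_tendsto {a : ℕ → ℕ → ℤ} {c t : ℕ → ℝ} {h : ℕ → ℕ → ℝ} {b : ℕ → ℤ} {c' τ : ℝ}
    (H : ∀ n, BP (a n) (c n) (t n) (h n)) (hc : Tendsto c atTop (𝓝 c')) (ht : Tendsto t atTop (𝓝 τ))
    (hb : ∀ j, ∀ᶠ n in atTop, a n j = b j) (j : ℕ) :
    Tendsto (fun n => h n j) atTop (𝓝 ((b j : ℝ) - c' * τ ^ j)) := by
  have h1 : Tendsto (fun n => (a n j : ℝ)) atTop (𝓝 (b j : ℝ)) := by
    refine tendsto_const_nhds.congr' ?_
    filter_upwards [hb j] with n hn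
    rw [hn]
  have h2 : Tendsto (fun n => c n * t n ^ j) atTop (𝓝 (c' * τ ^ j)) := hc.mul (ht.pow j)
  refine (h1.sub h2).congr fun n => ?_
  rw [(H n).2.1 j]; ring

theorem bp1 : Bp1S := by
  intro a c t h b H ht hb
  have hc : Tendsto c atTop (𝓝 0) := by
    have h1 : Tendsto (fun n => c n ^ 2) atTop (𝓝 0) := by
      have h2 : Tendsto (fun n => t n ^ 2 - 1) atTop (𝓝 0) := by
        have := (ht.pow 2).sub_const 1
        simpa using this
      exact squeeze_zero (fun n => sq_nonneg _) (fun n => csq_le (H n)) h2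
    have h3 := h1.sqrt
    simp only [Real.sqrt_sq_eq_abs, Real.sqrt_zero] at h3
    exact (tendsto_zero_iff_abs_tendsto_zero _).2 h3
  have hj : ∀ j, Tendsto (fun n => h n j) atTop (𝓝 (b j : ℝ)) := by
    intro j
    have := h_tendsto H hc ht hb j
    simpa using this
  have key : ∀ s : Finset ℕ, ∑ j ∈ s, (b j : ℝ) ^ 2 ≤ 1 := by
    intro s
    have h1 : Tendsto (fun n => ∑ j ∈ s, h n j ^ 2) atTop (𝓝 (∑ j ∈ s, (b j : ℝ) ^ 2)) :=
      tendsto_finset_sum _ fun j _ => (hj j).pow 2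
    exact le_of_tendsto' h1 fun n => fsum_le (H n) s
  have hs : Summable (fun j => (b j : ℝ) ^ 2) :=
    summable_of_sum_le (fun j => sq_nonneg _) key
  exact ⟨hs, hs.tsum_le_of_sum_le key⟩

/-- Two representations `c τ^j + l²` agree. -/
theorem unique_exp {c τ c' τ' : ℝ} (h1 : 1 < τ) (h1' : 1 ≤ τ')
    (hD : Tendsto (fun j : ℕ => c * τ ^ j - c' * τ' ^ j) atTop (𝓝 0)) :
    c = c' ∧ (c = 0 ∨ τ = τ') := by
  have h2 : Tendsto (fun j : ℕ => c' * (τ - τ') * τ' ^ j) atTop (𝓝 0) := by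
    have h3 := ((tendsto_add_atTop_iff_nat 1).2 hD).sub (hD.const_mul τ)
    simp only [mul_zero, sub_zero] at h3
    refine h3.congr fun j => ?_
    rw [pow_succ, pow_succ]; ring
  have h4 : c' * (τ - τ') = 0 := by
    by_contra hne
    have hpos : 0 < |c' * (τ - τ')| := abs_pos.2 hne
    have h5 := h2.abs
    rw [abs_zero] at h5
    have h6 : ∀ j : ℕ, |c' * (τ - τ')| ≤ |c' * (τ - τ') * τ' ^ j| := by
      intro j
      rw [abs_mul (c' * (τ - τ'))]
      have : 1 ≤ |τ' ^ j| := by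
        rw [abs_of_nonneg (pow_nonneg (by linarith) j)]
        exact one_le_pow₀ h1'
      nlinarith [abs_nonneg (c' * (τ - τ'))]
    have := ge_of_tendsto' h5 h6
    linarith
  have h7 : ∀ x : ℝ, Tendsto (fun j : ℕ => x * τ ^ j) atTop (𝓝 0) → x = 0 := by
    intro x hx
    by_contra hne
    have hpos : 0 < |x| := abs_pos.2 hne
    have h5 := hx.abs
    rw [abs_zero] at h5
    have h6 : ∀ j : ℕ, |x| ≤ |x * τ ^ j| := by
      intro j
      rw [abs_mul x]
      have : 1 ≤ |τ ^ j| := by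
        rw [abs_of_nonneg (pow_nonneg (by linarith) j)]
        exact one_le_pow₀ h1.le
      nlinarith [abs_nonneg x]
    have := ge_of_tendsto' h5 h6
    linarith
  rcases mul_eq_zero.1 h4 with h | h
  · have : c = 0 := by
      apply h7
      refine hD.congr fun j => ?_
      rw [h]; ring
    exact ⟨by rw [this, h], Or.inl this⟩
  · have hτ : τ = τ' := by linarith
    have : c - c' = 0 := by
      apply h7
      refine hD.congr fun j => ?_
      rw [← hτ]; ring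
    exact ⟨by linarith, Or.inr hτ⟩

/-- The case of convergent parameters: some `a n` equals `b`. -/
theorem iso_core (a : ℕ → ℕ → ℤ) (c t : ℕ → ℝ) (h : ℕ → ℕ → ℝ) (b : ℕ → ℤ) (c' τ B : ℝ)
    (h' : ℕ → ℝ) (H : ∀ n, BP (a n) (c n) (t n) (h n)) (hB : ∀ n, t n ≤ B) (HU : BU b c' τ h')
    (hb : ∀ j, ∀ᶠ n in atTop, a n j = b j) (cs ts : ℝ) (hc : Tendsto c atTop (𝓝 cs))
    (ht : Tendsto t atTop (𝓝 ts)) : ∃ n, a n = b := by
  obtain ⟨hτ, hbe, hsum', hUeq⟩ := HU
  have hts : 1 ≤ ts := ge_of_tendsto' ht fun n => (H n).1.le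
  -- the limits of the remainders
  have hlim := h_tendsto H hc ht hb
  have keyb : ∀ s : Finset ℕ, ∑ j ∈ s, ((b j : ℝ) - cs * ts ^ j) ^ 2 ≤ 1 := by
    intro s
    have h1 : Tendsto (fun n => ∑ j ∈ s, h n j ^ 2) atTop
        (𝓝 (∑ j ∈ s, ((b j : ℝ) - cs * ts ^ j) ^ 2)) :=
      tendsto_finset_sum _ fun j _ => (hlim j).pow 2
    exact le_of_tendsto' h1 fun n => fsum_le (H n) s
  have hss : Summable (fun j => ((b j : ℝ) - cs * ts ^ j) ^ 2) :=
    summable_of_sum_le (fun j => sq_nonneg _) keyb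
  have sq_to : ∀ f : ℕ → ℝ, Summable (fun j => f j ^ 2) → Tendsto f atTop (𝓝 0) := by
    intro f hf
    have h1 := hf.tendsto_atTop_zero.sqrt
    simp only [Real.sqrt_sq_eq_abs, Real.sqrt_zero] at h1
    exact (tendsto_zero_iff_abs_tendsto_zero _).2 h1
  have hD : Tendsto (fun j : ℕ => c' * τ ^ j - cs * ts ^ j) atTop (𝓝 0) := by
    have h1 := (sq_to _ hss).sub (sq_to _ hsum')
    rw [sub_zero] at h1
    refine h1.congr fun j => ?_
    rw [hbe j]; ring
  obtain ⟨hcc, hor⟩ := unique_exp hτ hts hD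
  have hlim' : ∀ j, Tendsto (fun n => h n j) atTop (𝓝 (h' j)) := by
    intro j
    have h1 := hlim j
    have h2 : (b j : ℝ) - cs * ts ^ j = h' j := by
      rw [hbe j, ← hcc]
      rcases hor with h0 | h0
      · rw [h0]; ring
      · rw [← h0]; ring
    rwa [h2] at h1
  -- upper bound for the sums of squares
  have hsup : ∀ e : ℝ, 0 < e → ∀ᶠ n in atTop, ∑' j, h n j ^ 2 ≤ ∑' j, h' j ^ 2 + e := by
    intro e he
    rcases hor with h0 | h0
    · filter_upwards with n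
      have h1 := (H n).2.2.2
      have h2 : 0 ≤ (c n) ^ 2 / ((t n) ^ 2 - 1) := div_nonneg (sq_nonneg _) (den_pos (H n).1).le
      rw [h0] at hUeq
      simp only [ne_eq, OfNat.ofNat_ne_zero, not_false_eq_true, zero_pow, zero_div, zero_add] at hUeq
      linarith
    · have h1 : Tendsto (fun n => (c n) ^ 2 / ((t n) ^ 2 - 1)) atTop (𝓝 (c' ^ 2 / (τ ^ 2 - 1))) := by
        rw [hcc, h0]
        refine (hc.pow 2).div ((ht.pow 2).sub_const 1) ?_
        rw [← h0]; exact (den_pos hτ).ne'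
      have h2 : ∀ᶠ n in atTop, c' ^ 2 / (τ ^ 2 - 1) - e < (c n) ^ 2 / ((t n) ^ 2 - 1) :=
        h1.eventually_const_lt (by linarith)
      filter_upwards [h2] with n hn
      have h3 := (H n).2.2.2
      linarith
  have hBpos : 1 < B := lt_of_lt_of_le (H 0).1 (hB 0)
  -- choice of the small number
  obtain ⟨δ, hδ, hδ2⟩ : ∃ δ : ℝ, 0 < δ ∧ 2 * δ * (1 + B + τ + B * τ) < 1 := by
    have hK : 0 < 1 + B + τ + B * τ := by positivity
    refine ⟨1 / (4 * (1 + B + τ + B * τ)), by positivity, ?_⟩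
    have : 2 * (1 / (4 * (1 + B + τ + B * τ))) * (1 + B + τ + B * τ) = 1 / 2 := by
      field_simp; norm_num
    rw [this]; norm_num
  have hδs : 0 < δ ^ 2 := by positivity
  -- J with small tails
  have hpart : Tendsto (fun J : ℕ => ∑ j ∈ Finset.range J, h' j ^ 2) atTop (𝓝 (∑' j, h' j ^ 2)) :=
    hsum'.hasSum.tendsto_sum_nat
  obtain ⟨J, hJ⟩ := (hpart.eventually_const_lt
    (show ∑' j, h' j ^ 2 - δ ^ 2 / 4 < ∑' j, h' j ^ 2 by linarith)).exists
  have tail : ∀ f : ℕ → ℝ, Summable (fun j => f j ^ 2) → ∀ j, J ≤ j →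
      ∑ i ∈ Finset.range J, f i ^ 2 + f j ^ 2 ≤ ∑' i, f i ^ 2 := by
    intro f hf j hj
    have h1 := hf.sum_le_tsum (insert j (Finset.range J)) (fun i _ => sq_nonneg (f i))
    rw [Finset.sum_insert (by simp; omega)] at h1
    linarith
  have hJ' : ∀ j, J ≤ j → |h' j| ≤ δ := by
    intro j hj
    have := tail h' hsum' j hj
    refine abs_le_of_sq_le_sq ?_ hδ.le
    linarith
  have hfin : Tendsto (fun n => ∑ j ∈ Finset.range J, h n j ^ 2) atTop
      (𝓝 (∑ j ∈ Finset.range J, h' j ^ 2)) :=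
    tendsto_finset_sum _ fun j _ => (hlim' j).pow 2
  have hfin' : ∀ᶠ n in atTop, ∑ j ∈ Finset.range J, h' j ^ 2 - δ ^ 2 / 4 <
      ∑ j ∈ Finset.range J, h n j ^ 2 :=
    hfin.eventually_const_lt (by linarith)
  have hag : ∀ᶠ n in atTop, ∀ j ∈ Finset.range (J + 2), a n j = b j := by
    rw [eventually_all_finset]
    intro j _
    exact hb j
  obtain ⟨n, hn1, hn2, hn3⟩ := (hfin'.and ((hsup (δ ^ 2 / 4) (by positivity)).and hag)).exists
  have hJn : ∀ j, J ≤ j → |h n j| ≤ δ := by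
    intro j hj
    have := tail (h n) (H n).2.2.1 j hj
    refine abs_le_of_sq_le_sq ?_ hδ.le
    linarith
  refine ⟨n, ?_⟩
  by_contra hne
  have hex : ∃ m, a n m ≠ b m := by
    by_contra hcon
    push Not at hcon
    exact hne (funext hcon)
  classical
  set m := Nat.find hex with hm
  have hm1 : a n m ≠ b m := Nat.find_spec hex
  have hm2 : ∀ j, j < m → a n j = b j := fun j hj => by
    by_contra hcon
    exact Nat.find_min hex hj hcon
  have hm3 : J + 2 ≤ m := by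
    by_contra hcon
    push Not at hcon
    exact hm1 (hn3 m (Finset.mem_range.2 hcon))
  obtain ⟨k, hk⟩ : ∃ k, m = k + 2 := ⟨m - 2, by omega⟩
  have hkJ : J ≤ k := by omega
  have hu : ∀ j, j < m → c n * t n ^ j - c' * τ ^ j = h' j - h n j := by
    intro j hj
    have e1 := (H n).2.1 j
    have e2 := hbe j
    rw [hm2 j hj] at e1
    linarith
  have hub : ∀ j, j < m → J ≤ j → |c n * t n ^ j - c' * τ ^ j| ≤ 2 * δ := by
    intro j hj hJj
    rw [hu j hj]
    calc |h' j - h n j| ≤ |h' j| + |h n j| := abs_sub _ _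
      _ ≤ 2 * δ := by linarith [hJ' j hJj, hJn j hJj]
  have hrec : c n * t n ^ m - c' * τ ^ m = (t n + τ) * (c n * t n ^ (k + 1) - c' * τ ^ (k + 1))
      - t n * τ * (c n * t n ^ k - c' * τ ^ k) := by
    rw [hk]; ring
  have htn : 0 < t n := by linarith [(H n).1]
  have hum : |c n * t n ^ m - c' * τ ^ m| ≤ (B + τ) * (2 * δ) + B * τ * (2 * δ) := by
    rw [hrec]
    calc |(t n + τ) * (c n * t n ^ (k + 1) - c' * τ ^ (k + 1))
          - t n * τ * (c n * t n ^ k - c' * τ ^ k)|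
        ≤ |(t n + τ) * (c n * t n ^ (k + 1) - c' * τ ^ (k + 1))|
          + |t n * τ * (c n * t n ^ k - c' * τ ^ k)| := abs_sub _ _
      _ = (t n + τ) * |c n * t n ^ (k + 1) - c' * τ ^ (k + 1)|
          + t n * τ * |c n * t n ^ k - c' * τ ^ k| := by
          rw [abs_mul, abs_mul (t n * τ), abs_of_pos (by linarith : 0 < t n + τ),
            abs_of_pos (by positivity : 0 < t n * τ)]
      _ ≤ (B + τ) * (2 * δ) + B * τ * (2 * δ) := by
          have e1 := hub (k + 1) (by omega) (by omega)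
          have e2 := hub k (by omega) hkJ
          have e3 := hB n
          gcongr
  have hfinal : |((a n m - b m : ℤ) : ℝ)| < 1 := by
    have e1 : ((a n m - b m : ℤ) : ℝ) = (c n * t n ^ m - c' * τ ^ m) + (h n m - h' m) := by
      push_cast
      rw [(H n).2.1 m, hbe m]; ring
    rw [e1]
    have e2 := hJ' m (by omega)
    have e3 := hJn m (by omega)
    calc |(c n * t n ^ m - c' * τ ^ m) + (h n m - h' m)|
        ≤ |c n * t n ^ m - c' * τ ^ m| + |h n m - h' m| := abs_add_le _ _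
      _ ≤ |c n * t n ^ m - c' * τ ^ m| + (|h n m| + |h' m|) := by gcongr; exact abs_sub _ _
      _ ≤ ((B + τ) * (2 * δ) + B * τ * (2 * δ)) + (δ + δ) := by gcongr
      _ = 2 * δ * (1 + B + τ + B * τ) := by ring
      _ < 1 := hδ2
  rw [← Int.cast_abs] at hfinal
  have h0 : |a n m - b m| < 1 := by exact_mod_cast hfinal
  have : a n m - b m = 0 := Int.abs_lt_one_iff.1 h0
  exact hm1 (by omega)

theorem iso : IsoS := by
  intro a c t h b c' τ B h' H hB HU hb
  by_contra hcon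
  have hfr : ∃ᶠ n in atTop, a n ≠ b := by
    rw [Filter.Frequently]
    simpa using hcon
  obtain ⟨φ, hφ, hφ2⟩ := extraction_of_frequently_atTop hfr
  have hB1 : 1 < B := lt_of_lt_of_le (H 0).1 (hB 0)
  have hmem : ∀ n, (t (φ n), c (φ n)) ∈ Set.Icc (1 : ℝ) B ×ˢ Set.Icc (-B) B := by
    intro n
    have h1 := csq_le (H (φ n))
    have h2 := hB (φ n)
    have h3 := (H (φ n)).1
    have h4 : |c (φ n)| ≤ B := by
      refine abs_le_of_sq_le_sq ?_ (by linarith)
      nlinarith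
    exact ⟨⟨h3.le, h2⟩, abs_le.1 h4⟩
  obtain ⟨x, _, ψ, hψ, hlim⟩ := (isCompact_Icc.prod isCompact_Icc).tendsto_subseq hmem
  have ht : Tendsto (fun n => t (φ (ψ n))) atTop (𝓝 x.1) := (continuous_fst.tendsto x).comp hlim
  have hc : Tendsto (fun n => c (φ (ψ n))) atTop (𝓝 x.2) := (continuous_snd.tendsto x).comp hlim
  have hmono : Tendsto (fun n => φ (ψ n)) atTop atTop :=
    hφ.tendsto_atTop.comp hψ.tendsto_atTop
  obtain ⟨n, hn⟩ := iso_core (fun n => a (φ (ψ n))) (fun n => c (φ (ψ n))) (fun n => t (φ (ψ n)))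
    (fun n => h (φ (ψ n))) b c' τ B h' (fun n => H _) (fun n => hB _) HU
    (fun j => hmono.eventually (hb j)) x.2 x.1 hc ht
  exact hφ2 (ψ n) hn

end Pool.Agent.MP_b5021c_nt.H76
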